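import Mathlib
import Pool.Agent.Helper277.ROUniv

set_option autoImplicit false

namespace Pool.Agent.Results.MP_7ac902_al.BoundedClassLO

universe u

/-- For every `n` there is `c` such that every group `G` (in any universe) with a linear order
satisfying `a ≤ b → a * d ≤ b * d` and with `[x, y, …, y] = 1` (`y` taken `n` times,
`[a, b] = a⁻¹ * b⁻¹ * a * b`) for all `x, y` is nilpotent, of class at most `c`. -/
theorem result :
    ∀ n : ℕ, ∃ c : ℕ, ∀ (G : Type u) [Group G] [LinearOrder G],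
      (∀ a b d : G, a ≤ b → a * d ≤ b * d) →
      (∀ x y : G, (fun z : G => z⁻¹ * y⁻¹ * z * y)^[n] x = 1) →
      Group.IsNilpotent G ∧ Group.nilpotencyClass G ≤ c := by
  intro n
  obtain ⟨c, hc⟩ := Pool.Agent.Helper277.ROUniv.ro_class'.{u} n
  refine ⟨c, fun G _ _ hmul hE => ?_⟩
  have h := hc G ⟨fun a b => a ≤ b, fun x y => le_total x y, fun x y h1 h2 => le_antisymm h1 h2,
    fun x y z h1 h2 => le_trans h1 h2, hmul⟩ hE
  exact ⟨h.1, h.2.1⟩

end Pool.Agent.Results.MP_7ac902_al.BoundedClassLO
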